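import Pool.Agent.Lib_helper21.UC.Defs

/-!
# Choosability of the union of two graphs

A random partition of the palette into `l` parts shows that a `k`-choosable graph on `n` vertices
is `(a : l)`-choosable as soon as `a / l` exceeds `k` by a suitable multiple of `log (n l)`;
together with an `l`-choosable graph this gives a colouring of the union.
-/

set_option autoImplicit false

namespace Pool.Agent.Lib_helper21.UC

open Finset

/-- larger lists do not hurt -/
theorem Choosable.of_le {V : Type} {G : SimpleGraph V} {a : ℕ} (h : Choosable G a)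
    (L : V → Finset ℕ) (hL : ∀ v, a ≤ (L v).card) :
    ∃ c : V → ℕ, (∀ v, c v ∈ L v) ∧ ∀ u v, G.Adj u v → c u ≠ c v := by
  choose M hM using fun v => Finset.exists_subset_card_eq (hL v)
  obtain ⟨c, hc, hp⟩ := h M (fun v => (hM v).2)
  exact ⟨c, fun v => (hM v).1 (hc v), hp⟩

theorem Choosable.mono {V : Type} {G : SimpleGraph V} {a b : ℕ} (h : Choosable G a) (hab : a ≤ b) :
    Choosable G b := fun L hL => h.of_le L (fun v => by rw [hL v]; exact hab)

/-- the generating function of the number of colours of `A` in the part `i` -/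
theorem mgf {C : Type} [Fintype C] [DecidableEq C] (l : ℕ) (A : Finset C) (i : Fin l) (x : ℝ) :
    ∑ P : C → Fin l, x ^ (A.filter (fun c => P c = i)).card =
      ((l : ℝ) - 1 + x) ^ A.card * (l : ℝ) ^ (Fintype.card C - A.card) := by
  have h1 : ∀ P : C → Fin l, x ^ (A.filter (fun c => P c = i)).card =
      ∏ c : C, (if c ∈ A ∧ P c = i then x else 1) := by
    intro P
    rw [Finset.prod_ite, Finset.prod_const_one, mul_one, Finset.prod_const]
    congr 2
    ext c
    simp
  have h2 : ∀ c : C, ∑ j : Fin l, (if c ∈ A ∧ j = i then x else 1) =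
      if c ∈ A then (l : ℝ) - 1 + x else l := by
    intro c
    by_cases hc : c ∈ A
    · simp only [hc, true_and, if_true]
      rw [Finset.sum_ite, Finset.sum_const, Finset.sum_const]
      have : (Finset.univ.filter (fun j : Fin l => j = i)).card = 1 := by
        rw [Finset.card_eq_one]; exact ⟨i, by ext; simp⟩
      have h3 : (Finset.univ.filter (fun j : Fin l => ¬ j = i)).card = l - 1 := by
        have := Finset.card_filter_add_card_filter_not (s := (Finset.univ : Finset (Fin l)))
          (fun j => j = i)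
        simp at this
        omega
      rw [this, h3]
      have hl : 1 ≤ l := by
        rcases Nat.eq_zero_or_pos l with h | h
        · subst h; exact i.elim0
        · exact h
      simp only [nsmul_eq_mul]
      push_cast [Nat.cast_sub hl]
      ring
    · simp [hc]
  calc ∑ P : C → Fin l, x ^ (A.filter (fun c => P c = i)).card
      = ∑ P : C → Fin l, ∏ c : C, (if c ∈ A ∧ P c = i then x else 1) :=
        Finset.sum_congr rfl (fun P _ => h1 P)
    _ = ∏ c : C, ∑ j : Fin l, (if c ∈ A ∧ j = i then x else 1) := by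
        rw [Finset.prod_univ_sum, Fintype.piFinset_univ]
    _ = ∏ c : C, (if c ∈ A then (l : ℝ) - 1 + x else l) :=
        Finset.prod_congr rfl (fun c _ => h2 c)
    _ = _ := by
        rw [Finset.prod_ite, Finset.prod_const, Finset.prod_const]
        congr 2
        · congr 1; ext; simp
        · have : (Finset.univ.filter (fun c : C => c ∉ A)) = Aᶜ := by ext; simp
          rw [this, Finset.card_compl]

/-- the number of partitions with fewer than `k` colours of `A` in the part `i` -/
theorem bad_count {C : Type} [Fintype C] [DecidableEq C] (l k : ℕ) (A : Finset C) (i : Fin l)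
    (hk : 1 ≤ k) (s : ℝ) (hs : 0 ≤ s) :
    (((Finset.univ : Finset (C → Fin l)).filter
      (fun P => (A.filter (fun c => P c = i)).card < k)).card : ℝ) ≤
      (l : ℝ) ^ (Fintype.card C) *
        Real.exp (s * ((k : ℝ) - 1) - (A.card : ℝ) / l * (1 - Real.exp (-s))) := by
  have hl : 1 ≤ l := by
    rcases Nat.eq_zero_or_pos l with h | h
    · subst h; exact i.elim0
    · exact h
  have hl0 : (0 : ℝ) < l := by exact_mod_cast hl
  set x : ℝ := Real.exp (-s) with hx
  have hx0 : 0 < x := Real.exp_pos _
  have hx1 : x ≤ 1 := by rw [hx]; exact Real.exp_le_one_iff.mpr (by linarith)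
  -- every bad partition contributes at least `x ^ (k-1)`
  have h1 : (((Finset.univ : Finset (C → Fin l)).filter
      (fun P => (A.filter (fun c => P c = i)).card < k)).card : ℝ) * x ^ (k - 1) ≤
      ((l : ℝ) - 1 + x) ^ A.card * (l : ℝ) ^ (Fintype.card C - A.card) := by
    rw [← mgf l A i x, ← nsmul_eq_mul, ← Finset.sum_const]
    calc ∑ P ∈ (Finset.univ : Finset (C → Fin l)).filter
          (fun P => (A.filter (fun c => P c = i)).card < k), x ^ (k - 1)
        ≤ ∑ P ∈ (Finset.univ : Finset (C → Fin l)).filter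
          (fun P => (A.filter (fun c => P c = i)).card < k),
            x ^ (A.filter (fun c => P c = i)).card := by
          apply Finset.sum_le_sum
          intro P hP
          apply pow_le_pow_of_le_one hx0.le hx1
          have := (Finset.mem_filter.1 hP).2
          omega
      _ ≤ _ := Finset.sum_le_sum_of_subset_of_nonneg (Finset.filter_subset _ _)
          (fun P _ _ => pow_nonneg hx0.le _)
  have h2 : ((l : ℝ) - 1 + x) ≤ l * Real.exp (-(1 - x) / l) := by
    have := Real.add_one_le_exp (-(1 - x) / l)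
    have h3 : (l : ℝ) * (-(1 - x) / l + 1) = (l : ℝ) - 1 + x := by field_simp; ring
    rw [← h3]
    exact mul_le_mul_of_nonneg_left this hl0.le
  have h0 : 0 ≤ (l : ℝ) - 1 + x := by
    have : (1 : ℝ) ≤ l := by exact_mod_cast hl
    linarith
  have hA : A.card ≤ Fintype.card C := Finset.card_le_univ A
  have h4 : ((l : ℝ) - 1 + x) ^ A.card * (l : ℝ) ^ (Fintype.card C - A.card) ≤
      (l : ℝ) ^ (Fintype.card C) * Real.exp (-((A.card : ℝ) / l * (1 - x))) := by
    calc ((l : ℝ) - 1 + x) ^ A.card * (l : ℝ) ^ (Fintype.card C - A.card)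
        ≤ (l * Real.exp (-(1 - x) / l)) ^ A.card * (l : ℝ) ^ (Fintype.card C - A.card) :=
          mul_le_mul_of_nonneg_right (pow_le_pow_left₀ h0 h2 _) (pow_nonneg hl0.le _)
      _ = _ := by
          rw [mul_pow, ← Real.exp_nat_mul]
          have h5 : (l : ℝ) ^ (Fintype.card C) =
              (l : ℝ) ^ A.card * (l : ℝ) ^ (Fintype.card C - A.card) := by
            rw [← pow_add]; congr 1; omega
          rw [h5]
          have h6 : (A.card : ℝ) * (-(1 - x) / l) = -((A.card : ℝ) / l * (1 - x)) := by
            field_simp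
          rw [h6]; ring
  have h5 : x ^ (k - 1) = Real.exp (-(s * ((k : ℝ) - 1))) := by
    rw [hx, ← Real.exp_nat_mul]
    congr 1
    push_cast [Nat.cast_sub hk]
    ring
  have h6 := h1.trans h4
  rw [h5] at h6
  have h7 : (0 : ℝ) < Real.exp (s * ((k : ℝ) - 1)) := Real.exp_pos _
  calc (((Finset.univ : Finset (C → Fin l)).filter
      (fun P => (A.filter (fun c => P c = i)).card < k)).card : ℝ)
      = (((Finset.univ : Finset (C → Fin l)).filter
      (fun P => (A.filter (fun c => P c = i)).card < k)).card : ℝ) *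
        Real.exp (-(s * ((k : ℝ) - 1))) * Real.exp (s * ((k : ℝ) - 1)) := by
        rw [mul_assoc, ← Real.exp_add]; simp
    _ ≤ ((l : ℝ) ^ (Fintype.card C) * Real.exp (-((A.card : ℝ) / l * (1 - x)))) *
        Real.exp (s * ((k : ℝ) - 1)) := mul_le_mul_of_nonneg_right h6 h7.le
    _ = _ := by
        rw [mul_assoc, ← Real.exp_add]; congr 2; ring

/-- there is a partition of the palette into `l` parts which meets every list in at least `k`
colours in every part -/
theorem exists_partition {V : Type} [Fintype V] {C : Type} [Fintype C] [DecidableEq C]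
    (l k a : ℕ) (hl : 1 ≤ l) (hk : 1 ≤ k) (L : V → Finset C) (hL : ∀ v, (L v).card = a)
    (hV : 1 ≤ Fintype.card V)
    (hgt : (k : ℝ) < (a : ℝ) / l)
    (hbig : 2 * ((a : ℝ) / l) * Real.log ((Fintype.card V : ℝ) * l) ≤ ((a : ℝ) / l - k) ^ 2) :
    ∃ P : C → Fin l, ∀ v i, k ≤ ((L v).filter (fun c => P c = i)).card := by
  by_contra hcon
  push Not at hcon
  have hl0 : (0 : ℝ) < l := by exact_mod_cast hl
  set μ : ℝ := (a : ℝ) / l with hμ
  have hk0 : (0 : ℝ) < k := by exact_mod_cast hk
  have hμ0 : 0 < μ := hk0.trans hgt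
  set s : ℝ := (μ - k) / μ with hs
  have hs0 : 0 < s := div_pos (by linarith) hμ0
  -- all partitions are bad
  have h1 : (Finset.univ : Finset (C → Fin l)) =
      (Finset.univ : Finset (V × Fin l)).biUnion (fun vi =>
        (Finset.univ : Finset (C → Fin l)).filter
          (fun P => ((L vi.1).filter (fun c => P c = vi.2)).card < k)) := by
    ext P
    simp only [Finset.mem_univ, Finset.mem_biUnion, Finset.mem_filter, true_and, true_iff]
    obtain ⟨v, i, h⟩ := hcon P
    exact ⟨(v, i), h⟩
  have h2 : ((l : ℝ) ^ (Fintype.card C)) ≤ ((Fintype.card V : ℝ) * l) *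
      ((l : ℝ) ^ (Fintype.card C) *
        Real.exp (s * ((k : ℝ) - 1) - μ * (1 - Real.exp (-s)))) := by
    have h3 : ((Finset.univ : Finset (C → Fin l)).card : ℝ) = (l : ℝ) ^ (Fintype.card C) := by
      rw [Finset.card_univ, Fintype.card_fun, Fintype.card_fin]; push_cast; ring
    rw [← h3]
    calc ((Finset.univ : Finset (C → Fin l)).card : ℝ)
        ≤ ∑ vi : V × Fin l, (((Finset.univ : Finset (C → Fin l)).filter
          (fun P => ((L vi.1).filter (fun c => P c = vi.2)).card < k)).card : ℝ) := by
          conv_lhs => rw [h1]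
          exact_mod_cast Finset.card_biUnion_le
      _ ≤ ∑ vi : V × Fin l, ((l : ℝ) ^ (Fintype.card C) *
        Real.exp (s * ((k : ℝ) - 1) - μ * (1 - Real.exp (-s)))) := by
          apply Finset.sum_le_sum
          intro vi _
          have := bad_count l k (L vi.1) vi.2 hk s hs0.le
          rw [hL vi.1] at this
          exact this
      _ = _ := by
          rw [Finset.sum_const, Finset.card_univ, Fintype.card_prod, Fintype.card_fin,
            nsmul_eq_mul, h3]
          push_cast; ring
  have hn0 : (0 : ℝ) < (Fintype.card V : ℝ) * l := by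
    have : (0 : ℝ) < (Fintype.card V : ℝ) := by exact_mod_cast hV
    positivity
  have hT : (0 : ℝ) < (l : ℝ) ^ (Fintype.card C) := pow_pos hl0 _
  have h3 : (1 : ℝ) ≤ ((Fintype.card V : ℝ) * l) *
      Real.exp (s * ((k : ℝ) - 1) - μ * (1 - Real.exp (-s))) := by
    have h4 : ((Fintype.card V : ℝ) * l) * ((l : ℝ) ^ (Fintype.card C) *
        Real.exp (s * ((k : ℝ) - 1) - μ * (1 - Real.exp (-s)))) =
        (l : ℝ) ^ (Fintype.card C) * (((Fintype.card V : ℝ) * l) *
      Real.exp (s * ((k : ℝ) - 1) - μ * (1 - Real.exp (-s)))) := by ring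
    rw [h4] at h2
    by_contra h5
    push Not at h5
    have := mul_lt_mul_of_pos_left h5 hT
    linarith
  -- but the exponent is too small
  have hes : Real.exp (-s) ≤ 1 - s + s ^ 2 / 2 := by
    have h5 : 1 + s + s ^ 2 / 2 ≤ Real.exp s := Real.quadratic_le_exp_of_nonneg hs0.le
    have h6 : Real.exp (-s) * Real.exp s = 1 := by rw [← Real.exp_add]; simp
    have h7 : (1 - s + s ^ 2 / 2) * (1 + s + s ^ 2 / 2) = 1 + s ^ 4 / 4 := by ring
    have h8 : 0 ≤ s ^ 4 := by positivity
    have h9 : 0 < 1 + s + s ^ 2 / 2 := by positivity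
    have h10 : 0 < Real.exp (-s) := Real.exp_pos _
    by_contra h11
    push Not at h11
    have : (1 - s + s ^ 2 / 2) * (1 + s + s ^ 2 / 2) < Real.exp (-s) * (1 + s + s ^ 2 / 2) :=
      mul_lt_mul_of_pos_right h11 h9
    have h12 : Real.exp (-s) * (1 + s + s ^ 2 / 2) ≤ Real.exp (-s) * Real.exp s :=
      mul_le_mul_of_nonneg_left h5 h10.le
    nlinarith
  have hlog : Real.log ((Fintype.card V : ℝ) * l) ≤ (μ - k) ^ 2 / (2 * μ) := by
    rw [le_div_iff₀ (by positivity)]
    linarith
  have h5 : s * ((k : ℝ) - 1) - μ * (1 - Real.exp (-s)) < -((μ - k) ^ 2 / (2 * μ)) := by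
    have h6 : s * ((k : ℝ) - 1) - μ * (1 - Real.exp (-s)) ≤
        s * ((k : ℝ) - 1) - μ * (s - s ^ 2 / 2) := by
      have : μ * (s - s ^ 2 / 2) ≤ μ * (1 - Real.exp (-s)) :=
        mul_le_mul_of_nonneg_left (by linarith) hμ0.le
      linarith
    have h7 : s * ((k : ℝ) - 1) - μ * (s - s ^ 2 / 2) =
        -((μ - k) ^ 2 / (2 * μ)) - s := by
      rw [hs]; field_simp; ring
    linarith
  have h6 : ((Fintype.card V : ℝ) * l) *
      Real.exp (s * ((k : ℝ) - 1) - μ * (1 - Real.exp (-s))) < 1 := by
    calc ((Fintype.card V : ℝ) * l) *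
        Real.exp (s * ((k : ℝ) - 1) - μ * (1 - Real.exp (-s)))
        < ((Fintype.card V : ℝ) * l) * Real.exp (-((μ - k) ^ 2 / (2 * μ))) :=
          mul_lt_mul_of_pos_left (Real.exp_lt_exp.2 h5) hn0
      _ ≤ ((Fintype.card V : ℝ) * l) *
          Real.exp (-Real.log ((Fintype.card V : ℝ) * l)) :=
          mul_le_mul_of_nonneg_left (Real.exp_le_exp.2 (by linarith)) hn0.le
      _ = 1 := by
          rw [Real.exp_neg, Real.exp_log hn0, mul_inv_cancel₀ hn0.ne']
  linarith

end Pool.Agent.Lib_helper21.UC
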