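import Mathlib

/-!
# Choosable graphs
-/

set_option autoImplicit false

namespace Pool.Agent.Lib_helper21.UC

/-- `G` is `a`-choosable: for all lists of exactly `a` colours there is a proper colouring from
the lists. -/
def Choosable {V : Type} (G : SimpleGraph V) (a : ℕ) : Prop :=
  ∀ L : V → Finset ℕ, (∀ v, (L v).card = a) →
    ∃ c : V → ℕ, (∀ v, c v ∈ L v) ∧ ∀ u v, G.Adj u v → c u ≠ c v

end Pool.Agent.Lib_helper21.UC
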