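import Pool.Agent.Lib_helper21.UC.Core

/-!
# Colouring almost all vertices of the union of a `k`-choosable and an `l`-choosable graph
-/

set_option autoImplicit false

namespace Pool.Agent.Lib_helper21.UC

open Finset

/-- `e^{-s} ≤ 1 - s + s²/2` for `s ≥ 0` -/
theorem exp_neg_le {s : ℝ} (hs0 : 0 ≤ s) : Real.exp (-s) ≤ 1 - s + s ^ 2 / 2 := by
  have h5 : 1 + s + s ^ 2 / 2 ≤ Real.exp s := Real.quadratic_le_exp_of_nonneg hs0
  have h6 : Real.exp (-s) * Real.exp s = 1 := by rw [← Real.exp_add]; simp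
  have h7 : (1 - s + s ^ 2 / 2) * (1 + s + s ^ 2 / 2) = 1 + s ^ 4 / 4 := by ring
  have h8 : 0 ≤ s ^ 4 := by positivity
  have h9 : 0 < 1 + s + s ^ 2 / 2 := by positivity
  have h10 : 0 < Real.exp (-s) := Real.exp_pos _
  by_contra h11
  push Not at h11
  have : (1 - s + s ^ 2 / 2) * (1 + s + s ^ 2 / 2) < Real.exp (-s) * (1 + s + s ^ 2 / 2) :=
    mul_lt_mul_of_pos_right h11 h9
  have h12 : Real.exp (-s) * (1 + s + s ^ 2 / 2) ≤ Real.exp (-s) * Real.exp s :=
    mul_le_mul_of_nonneg_left h5 h10.le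
  nlinarith

/-- few partitions leave fewer than `k` colours of a list in a given part -/
theorem bad_count' {C : Type} [Fintype C] [DecidableEq C] (l k : ℕ) (A : Finset C) (i : Fin l)
    (hk : 1 ≤ k) (ε : ℝ) (hε : 0 < ε) (hA : (1 + ε) * ((k : ℝ) * l) ≤ A.card) :
    (((Finset.univ : Finset (C → Fin l)).filter
      (fun P => (A.filter (fun c => P c = i)).card < k)).card : ℝ) ≤
      (l : ℝ) ^ (Fintype.card C) * Real.exp (-(ε ^ 2 * k / (2 * (1 + ε)))) := by
  have hl : 1 ≤ l := by
    rcases Nat.eq_zero_or_pos l with h | h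
    · subst h; exact i.elim0
    · exact h
  have hl0 : (0 : ℝ) < l := by exact_mod_cast hl
  have hk0 : (0 : ℝ) < k := by exact_mod_cast hk
  set s : ℝ := ε / (1 + ε) with hs
  have hs0 : 0 < s := by positivity
  refine (bad_count l k A i hk s hs0.le).trans ?_
  apply mul_le_mul_of_nonneg_left _ (pow_nonneg hl0.le _)
  apply Real.exp_le_exp.2
  have h1 : (1 + ε) * (k : ℝ) ≤ (A.card : ℝ) / l := by
    rw [le_div_iff₀ hl0]; linarith
  have h2 := exp_neg_le hs0.le
  have h3 : 0 ≤ s - s ^ 2 / 2 := by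
    have : s ≤ 1 := by rw [hs, div_le_one (by positivity)]; linarith
    nlinarith
  have h4 : (1 + ε) * (k : ℝ) * (s - s ^ 2 / 2) ≤ (A.card : ℝ) / l * (1 - Real.exp (-s)) :=
    mul_le_mul h1 (by linarith) h3 (by positivity)
  have h5 : s * ((k : ℝ) - 1) - (1 + ε) * (k : ℝ) * (s - s ^ 2 / 2) =
      -(ε ^ 2 * k / (2 * (1 + ε))) - s := by
    rw [hs]; field_simp; ring
  linarith

/-- a partition of the palette which is good for almost all vertices -/
theorem exists_partition' {V : Type} [Fintype V] [DecidableEq V] {C : Type} [Fintype C] [DecidableEq C]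
    (l k : ℕ) (hl : 1 ≤ l) (hk : 1 ≤ k) (L : V → Finset C) (ε : ℝ) (hε : 0 < ε)
    (hL : ∀ v, (1 + ε) * ((k : ℝ) * l) ≤ (L v).card)
    (w : V → ℝ) (hw : ∀ v, 0 ≤ w v) :
    ∃ (P : C → Fin l) (U : Finset V),
      (∀ v ∈ U, ∀ i, k ≤ ((L v).filter (fun c => P c = i)).card) ∧
      ∑ v ∈ Finset.univ.filter (fun v => v ∉ U), w v ≤
        l * Real.exp (-(ε ^ 2 * k / (2 * (1 + ε)))) * ∑ v, w v := by
  classical
  have hl0 : (0 : ℝ) < l := by exact_mod_cast hl
  set E : ℝ := Real.exp (-(ε ^ 2 * k / (2 * (1 + ε)))) with hE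
  have hne : (Finset.univ : Finset (C → Fin l)).Nonempty := by
    have : Nonempty (Fin l) := ⟨⟨0, hl⟩⟩
    exact Finset.univ_nonempty
  have hsum : ∑ P : C → Fin l, ∑ v : V, w v *
      (∑ i : Fin l, if ((L v).filter (fun c => P c = i)).card < k then (1 : ℝ) else 0) ≤
      ∑ P : C → Fin l, l * E * ∑ v, w v := by
    rw [Finset.sum_comm]
    rw [Finset.sum_const, Finset.card_univ, Fintype.card_fun, Fintype.card_fin, nsmul_eq_mul,
      Finset.mul_sum, Finset.mul_sum]
    apply Finset.sum_le_sum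
    intro v _
    rw [← Finset.mul_sum, Finset.sum_comm]
    have h1 : ∀ i : Fin l, ∑ P : C → Fin l,
        (if ((L v).filter (fun c => P c = i)).card < k then (1 : ℝ) else 0) ≤
        (l : ℝ) ^ (Fintype.card C) * E := by
      intro i
      rw [Finset.sum_boole]
      exact bad_count' l k (L v) i hk ε hε (hL v)
    calc w v * ∑ i : Fin l, ∑ P : C → Fin l,
        (if ((L v).filter (fun c => P c = i)).card < k then (1 : ℝ) else 0)
        ≤ w v * ∑ i : Fin l, (l : ℝ) ^ (Fintype.card C) * E :=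
          mul_le_mul_of_nonneg_left (Finset.sum_le_sum (fun i _ => h1 i)) (hw v)
      _ = _ := by
          rw [Finset.sum_const, Finset.card_univ, Fintype.card_fin, nsmul_eq_mul]
          push_cast
          ring
  obtain ⟨P, _, hP⟩ := Finset.exists_le_of_sum_le hne hsum
  refine ⟨P, Finset.univ.filter
    (fun v => ∀ i, k ≤ ((L v).filter (fun c => P c = i)).card), ?_, ?_⟩
  · intro v hv i
    exact (Finset.mem_filter.1 hv).2 i
  · refine le_trans ?_ hP
    calc ∑ v ∈ Finset.univ.filter (fun v => v ∉ Finset.univ.filter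
          (fun v => ∀ i, k ≤ ((L v).filter (fun c => P c = i)).card)), w v
        ≤ ∑ v ∈ Finset.univ.filter (fun v => v ∉ Finset.univ.filter
          (fun v => ∀ i, k ≤ ((L v).filter (fun c => P c = i)).card)), w v *
          (∑ i : Fin l, if ((L v).filter (fun c => P c = i)).card < k then (1 : ℝ) else 0) := by
          apply Finset.sum_le_sum
          intro v hv
          have h1 := (Finset.mem_filter.1 hv).2
          simp only [Finset.mem_filter, Finset.mem_univ, true_and, not_forall, not_le] at h1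
          obtain ⟨i, hi⟩ := h1
          have h2 : (1 : ℝ) ≤
              ∑ i : Fin l, if ((L v).filter (fun c => P c = i)).card < k then (1 : ℝ) else 0 := by
            calc (1 : ℝ) = if ((L v).filter (fun c => P c = i)).card < k then (1 : ℝ) else 0 := by
                  rw [if_pos hi]
              _ ≤ _ := Finset.single_le_sum (f := fun i : Fin l =>
                  if ((L v).filter (fun c => P c = i)).card < k then (1 : ℝ) else 0)
                  (fun j _ => by split_ifs <;> norm_num) (Finset.mem_univ i)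
          nlinarith [hw v]
      _ ≤ _ := Finset.sum_le_sum_of_subset_of_nonneg (Finset.filter_subset _ _)
          (fun v _ _ => mul_nonneg (hw v) (Finset.sum_nonneg
            (fun j _ => by split_ifs <;> norm_num)))

/-- almost all vertices can be coloured (the first graph carries the partition) -/
theorem part_aux {V : Type} [Fintype V] [DecidableEq V] (G H : SimpleGraph V) (k l : ℕ) (hk : 1 ≤ k)
    (hl : 1 ≤ l) (hG : Choosable G k) (hH : Choosable H l) (ε : ℝ) (hε : 0 < ε)
    (L : V → Finset ℕ) (hL : ∀ v, (1 + ε) * ((k : ℝ) * l) ≤ (L v).card)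
    (w : V → ℝ) (hw : ∀ v, 0 ≤ w v) :
    ∃ (U : Finset V) (c : V → ℕ), (∀ v ∈ U, c v ∈ L v) ∧
      (∀ u ∈ U, ∀ v ∈ U, (G ⊔ H).Adj u v → c u ≠ c v) ∧
      ∑ v ∈ Finset.univ.filter (fun v => v ∉ U), w v ≤
        l * Real.exp (-(ε ^ 2 * k / (2 * (1 + ε)))) * ∑ v, w v := by
  classical
  set S : Finset ℕ := Finset.univ.biUnion L with hS
  have hsub : ∀ v, L v ⊆ S := fun v => Finset.subset_biUnion_of_mem L (Finset.mem_univ v)
  set L' : V → Finset {x // x ∈ S} := fun v => Finset.univ.filter (fun c => c.1 ∈ L v) with hL'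
  have hval : ∀ v, (L' v).map (Function.Embedding.subtype _) = L v := by
    intro v
    ext x
    simp only [hL', Finset.mem_map, Finset.mem_filter, Finset.mem_univ, true_and,
      Function.Embedding.coe_subtype]
    constructor
    · rintro ⟨c, hc, rfl⟩; exact hc
    · intro hx; exact ⟨⟨x, hsub v hx⟩, hx, rfl⟩
  have hcard : ∀ v, (L' v).card = (L v).card := by
    intro v
    conv_rhs => rw [← hval v, Finset.card_map]
  obtain ⟨P, U, hPU, hw'⟩ := exists_partition' l k hl hk L' ε hε
    (fun v => by rw [hcard v]; exact hL v) w hw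
  -- colour `G` from every part
  set Q : Fin l → V → Finset ℕ := fun i v =>
    if v ∈ U then ((L' v).filter (fun c => P c = i)).map (Function.Embedding.subtype _)
    else Finset.range k with hQ
  have hcol : ∀ i : Fin l, ∃ c : V → ℕ, (∀ v, c v ∈ Q i v) ∧ ∀ u v, G.Adj u v → c u ≠ c v := by
    intro i
    apply hG.of_le
    intro v
    simp only [hQ]
    split_ifs with hv
    · rw [Finset.card_map]
      exact hPU v hv i
    · simp
  choose c hc hcG using hcol
  have hc' : ∀ i, ∀ v ∈ U, ∃ x : {x // x ∈ S}, x.1 = c i v ∧ x.1 ∈ L v ∧ P x = i := by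
    intro i v hv
    have := hc i v
    simp only [hQ, if_pos hv] at this
    rw [Finset.mem_map] at this
    obtain ⟨x, hx, hxe⟩ := this
    rw [Finset.mem_filter] at hx
    refine ⟨x, hxe, ?_, hx.2⟩
    have := hx.1
    simp only [hL', Finset.mem_filter, Finset.mem_univ, true_and] at this
    exact this
  have key : ∀ i j, ∀ u ∈ U, ∀ v ∈ U, c i u = c j v → i = j := by
    intro i j u hu v hv h
    obtain ⟨x, hx1, _, hx3⟩ := hc' i u hu
    obtain ⟨y, hy1, _, hy3⟩ := hc' j v hv
    have : x = y := Subtype.ext (by rw [hx1, hy1, h])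
    rw [← hx3, ← hy3, this]
  set M : V → Finset ℕ := fun v =>
    if v ∈ U then (Finset.univ : Finset (Fin l)).image (fun i => c i v) else Finset.range l with hM
  have hMc : ∀ v, (M v).card = l := by
    intro v
    simp only [hM]
    split_ifs with hv
    · rw [Finset.card_image_of_injective _ (fun i j h => key i j v hv v hv h)]
      simp
    · simp
  obtain ⟨f, hf, hfH⟩ := hH M hMc
  have hfU : ∀ v ∈ U, ∃ i, c i v = f v := by
    intro v hv
    have := hf v
    simp only [hM, if_pos hv] at this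
    obtain ⟨i, _, hi⟩ := Finset.mem_image.1 this
    exact ⟨i, hi⟩
  refine ⟨U, f, ?_, ?_, hw'⟩
  · intro v hv
    obtain ⟨i, hi⟩ := hfU v hv
    obtain ⟨x, hx1, hx2, _⟩ := hc' i v hv
    rw [← hi, ← hx1]; exact hx2
  · intro u hu v hv huv
    rw [SimpleGraph.sup_adj] at huv
    rcases huv with h | h
    · obtain ⟨i, hi⟩ := hfU u hu
      obtain ⟨j, hj⟩ := hfU v hv
      intro he
      have hij : i = j := key i j u hu v hv (by rw [hi, hj, he])
      subst hij
      exact hcG i u v h (by rw [hi, hj, he])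
    · exact hfH u v h

/-- almost all vertices can be coloured -/
theorem part {V : Type} [Fintype V] [DecidableEq V] (G H : SimpleGraph V) (k l : ℕ) (hk : 1 ≤ k)
    (hl : 1 ≤ l) (hG : Choosable G k) (hH : Choosable H l) (ε : ℝ) (hε : 0 < ε)
    (L : V → Finset ℕ) (hL : ∀ v, (1 + ε) * ((k : ℝ) * l) ≤ (L v).card)
    (w : V → ℝ) (hw : ∀ v, 0 ≤ w v) :
    ∃ (U : Finset V) (c : V → ℕ), (∀ v ∈ U, c v ∈ L v) ∧
      (∀ u ∈ U, ∀ v ∈ U, (G ⊔ H).Adj u v → c u ≠ c v) ∧
      ∑ v ∈ Finset.univ.filter (fun v => v ∉ U), w v ≤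
        (min k l : ℕ) * Real.exp (-(ε ^ 2 * (max k l : ℕ) / (2 * (1 + ε)))) * ∑ v, w v := by
  rcases le_total l k with h | h
  · rw [min_eq_right h, max_eq_left h]
    exact part_aux G H k l hk hl hG hH ε hε L hL w hw
  · rw [min_eq_left h, max_eq_right h, sup_comm]
    exact part_aux H G l k hl hk hH hG ε hε L (fun v => by rw [mul_comm (l : ℝ) k]; exact hL v) w hw

/-- all vertices can be coloured if the graph is not too large -/
theorem full {V : Type} [Fintype V] (G H : SimpleGraph V) (k l : ℕ) (hk : 1 ≤ k)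
    (hl : 1 ≤ l) (hG : Choosable G k) (hH : Choosable H l) (ε : ℝ) (hε : 0 < ε)
    (hn : (min k l : ℕ) * (Fintype.card V : ℝ) < Real.exp (ε ^ 2 * (max k l : ℕ) / (2 * (1 + ε))))
    (L : V → Finset ℕ) (hL : ∀ v, (1 + ε) * ((k : ℝ) * l) ≤ (L v).card) :
    ∃ c : V → ℕ, (∀ v, c v ∈ L v) ∧ ∀ u v, (G ⊔ H).Adj u v → c u ≠ c v := by
  classical
  obtain ⟨U, c, h1, h2, h3⟩ := part G H k l hk hl hG hH ε hε L hL (fun _ => 1)
    (fun _ => zero_le_one)
  have h4 : ((Finset.univ.filter (fun v => v ∉ U)).card : ℝ) < 1 := by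
    have h5 : ∑ v ∈ Finset.univ.filter (fun v => v ∉ U), (1 : ℝ) =
        ((Finset.univ.filter (fun v => v ∉ U)).card : ℝ) := by simp
    rw [← h5]
    refine lt_of_le_of_lt h3 ?_
    have h6 : ∑ _v : V, (1 : ℝ) = Fintype.card V := by simp
    rw [h6, Real.exp_neg, mul_assoc, mul_comm (Real.exp _)⁻¹, ← mul_assoc, ← div_eq_mul_inv,
      div_lt_one (Real.exp_pos _)]
    exact hn
  have h5 : (Finset.univ.filter (fun v => v ∉ U)).card = 0 := by
    have : (Finset.univ.filter (fun v => v ∉ U)).card < 1 := by exact_mod_cast h4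
    omega
  have h6 : ∀ v, v ∈ U := by
    intro v
    rw [Finset.card_eq_zero] at h5
    by_contra hv
    have : v ∈ Finset.univ.filter (fun v => v ∉ U) := by simp [hv]
    rw [h5] at this
    simp at this
  exact ⟨c, fun v => h1 v (h6 v), fun u v => h2 u (h6 u) v (h6 v)⟩

end Pool.Agent.Lib_helper21.UC
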